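import Pool.Agent.N728.QG.Def2
import Pool.Agent.N426.QL.ORB

set_option autoImplicit false

/-! # Project QH (helper728), part ORBS: the orbit argument with a shift (helper849) -/

namespace Pool.Agent.N849.QH

open Finset Pool.Agent.N728.QL Pool.Agent.N426.QL
open Pool.Agent.N728.QG (WnR DvR Badr AAr DDr S_ORBS)

noncomputable section

/-- the sum over the orbits -/
def SSr (φ : ℕ → ℕ → ℝ) (E : ℕ → ℝ) (w y : ℕ) (ρ T Y : ℝ) (M0 : ℕ) : ℝ :=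
  ∑ M ∈ (PP w y).divisors.filter (fun M => M ≤ M0), ∑ j ∈ Wn ρ M,
    ∑ x ∈ Icc 1 ⌊T / ρ ^ (j + 1)⌋₊, ∑ t ∈ Icc 1 ⌊Y * ρ ^ (j + 1) / M⌋₊,
      ∑ m ∈ Dv ρ M j, FF φ E w y M x t m

/-- the flat index set -/
def KKr (w y : ℕ) (ρ T Y : ℝ) (M0 : ℕ) : Finset (Σ _ : ℕ, Σ _ : ℕ, ℕ × ℕ) :=
  ((PP w y).divisors.filter (fun M => M ≤ M0)).sigma fun M => M.divisors.sigma fun m =>
    Icc 1 ⌊T / ρ ^ (jw ρ m + 1)⌋₊ ×ˢ Icc 1 ⌊Y * ρ ^ (jw ρ m + 1) / M⌋₊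

theorem SSr_flat (φ : ℕ → ℕ → ℝ) (E : ℕ → ℝ) (w y : ℕ) (ρ T Y : ℝ) (M0 : ℕ) :
    SSr φ E w y ρ T Y M0 =
      ∑ k ∈ KKr w y ρ T Y M0, FF φ E w y k.1 k.2.2.1 k.2.2.2 k.2.1 := by
  unfold SSr KKr
  rw [Finset.sum_sigma]
  refine Finset.sum_congr rfl fun M _ => ?_
  rw [Finset.sum_sigma]
  have h1 : ∀ j ∈ Wn ρ M, (∑ x ∈ Icc 1 ⌊T / ρ ^ (j + 1)⌋₊,
      ∑ t ∈ Icc 1 ⌊Y * ρ ^ (j + 1) / M⌋₊, ∑ m ∈ Dv ρ M j, FF φ E w y M x t m) =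
      ∑ m ∈ M.divisors with jw ρ m = j, ∑ p ∈ Icc 1 ⌊T / ρ ^ (jw ρ m + 1)⌋₊ ×ˢ
        Icc 1 ⌊Y * ρ ^ (jw ρ m + 1) / M⌋₊, FF φ E w y M p.1 p.2 m := by
    intro j _
    have h2 : ∀ x ∈ Icc 1 ⌊T / ρ ^ (j + 1)⌋₊,
        (∑ t ∈ Icc 1 ⌊Y * ρ ^ (j + 1) / M⌋₊, ∑ m ∈ Dv ρ M j, FF φ E w y M x t m) =
        ∑ m ∈ Dv ρ M j, ∑ t ∈ Icc 1 ⌊Y * ρ ^ (j + 1) / M⌋₊, FF φ E w y M x t m :=
      fun x _ => Finset.sum_comm
    rw [Finset.sum_congr rfl h2, Finset.sum_comm]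
    refine Finset.sum_congr rfl fun m hm => ?_
    have h3 : jw ρ m = j := (Finset.mem_filter.1 hm).2
    rw [Finset.sum_product, h3]
  rw [Finset.sum_congr rfl h1]
  unfold Wn
  rw [Finset.sum_fiberwise_of_maps_to (fun m hm => Finset.mem_image_of_mem _ hm)]

/-- the restricted index set -/
def GKr (w y : ℕ) (Y : ℝ) (k : Σ _ : ℕ, Σ _ : ℕ, ℕ × ℕ) : Prop :=
  Rg w y (k.2.2.1 : ℤ) ∧ Rg w y (k.2.2.2 : ℤ) ∧ ((k.1 / k.2.1 * k.2.2.2 : ℕ) : ℝ) ≤ Y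

theorem mem_KKr {w y : ℕ} {ρ T Y : ℝ} {M0 : ℕ} {k : Σ _ : ℕ, Σ _ : ℕ, ℕ × ℕ} :
    k ∈ KKr w y ρ T Y M0 ↔ (k.1 ∣ PP w y ∧ k.1 ≤ M0) ∧ k.2.1 ∣ k.1 ∧
      (1 ≤ k.2.2.1 ∧ k.2.2.1 ≤ ⌊T / ρ ^ (jw ρ k.2.1 + 1)⌋₊) ∧
      (1 ≤ k.2.2.2 ∧ k.2.2.2 ≤ ⌊Y * ρ ^ (jw ρ k.2.1 + 1) / k.1⌋₊) := by
  unfold KKr
  rw [Finset.mem_sigma, Finset.mem_sigma, Finset.mem_filter, Nat.mem_divisors, Nat.mem_divisors,
    Finset.mem_product, Finset.mem_Icc, Finset.mem_Icc]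
  have h0 := PP_ne w y
  constructor
  · rintro ⟨⟨⟨h1, -⟩, h2⟩, ⟨h3, -⟩, h4, h5⟩
    exact ⟨⟨h1, h2⟩, h3, h4, h5⟩
  · rintro ⟨⟨h1, h2⟩, h3, h4, h5⟩
    exact ⟨⟨⟨h1, h0⟩, h2⟩, ⟨h3, fun h => h0 (Nat.eq_zero_of_zero_dvd (h ▸ h1))⟩, h4, h5⟩

theorem mx_ler {ρ T : ℝ} (hρ : 1 < ρ) (hT : 0 < T) {m x : ℕ} (hm : 0 < m)
    (h : x ≤ ⌊T / ρ ^ (jw ρ m + 1)⌋₊) : ((m * x : ℕ) : ℝ) ≤ T := by
  have hρ0 : (0 : ℝ) < ρ := by linarith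
  have hp : (0 : ℝ) < ρ ^ (jw ρ m + 1) := by positivity
  have h1 : (x : ℝ) ≤ T / ρ ^ (jw ρ m + 1) := by
    have := Nat.floor_le (show (0 : ℝ) ≤ T / ρ ^ (jw ρ m + 1) by positivity)
    have h2 : (x : ℝ) ≤ (⌊T / ρ ^ (jw ρ m + 1)⌋₊ : ℝ) := by exact_mod_cast h
    exact h2.trans this
  rw [le_div_iff₀ hp] at h1
  have h2 := lt_jw hρ hm
  push_cast
  calc (m : ℝ) * x ≤ ρ ^ (jw ρ m + 1) * x := by
        apply mul_le_mul_of_nonneg_right h2.le (Nat.cast_nonneg _)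
    _ = x * ρ ^ (jw ρ m + 1) := mul_comm _ _
    _ ≤ T := h1

/-- the injectivity -/
theorem gg_injr {w y : ℕ} {ρ T Y : ℝ} {M0 : ℕ} {k k' : Σ _ : ℕ, Σ _ : ℕ, ℕ × ℕ}
    (hk : k ∈ KKr w y ρ T Y M0) (hk' : k' ∈ KKr w y ρ T Y M0) (hg : GKr w y Y k) (hg' : GKr w y Y k')
    (h : gg k = gg k') : k = k' := by
  obtain ⟨M, m, x, t⟩ := k
  obtain ⟨M', m', x', t'⟩ := k'
  obtain ⟨⟨h1, -⟩, h3, h4, h5⟩ := mem_KKr.1 hk
  obtain ⟨⟨h1', -⟩, h3', h4', h5'⟩ := mem_KKr.1 hk'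
  obtain ⟨r1, r2, -⟩ := hg
  obtain ⟨r1', r2', -⟩ := hg'
  simp only at h1 h3 h4 h5 h1' h3' h4' h5' r1 r2 r1' r2'
  have e1 : m * x = m' * x' := congrArg Prod.fst h
  have e2 : M / m * t = M' / m' * t' := congrArg Prod.snd h
  have hMp := pos_of_dvd_PP h1
  have hMp' := pos_of_dvd_PP h1'
  have hmp : 0 < m := Nat.pos_of_dvd_of_pos h3 hMp
  have hmp' : 0 < m' := Nat.pos_of_dvd_of_pos h3' hMp'
  have em : m = m' := by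
    have a1 := pp_mul (w := w) (y := y) (h3.trans h1) (z := x) (by omega) r1
    have a2 := pp_mul (w := w) (y := y) (h3'.trans h1') (z := x') (by omega) r1'
    rw [← a1, ← a2, e1]
  subst em
  have ex : x = x' := Nat.eq_of_mul_eq_mul_left hmp e1
  subst ex
  have ec : M / m = M' / m := by
    have b1 : M / m ∣ PP w y := (Nat.div_dvd_of_dvd h3).trans h1
    have b2 : M' / m ∣ PP w y := (Nat.div_dvd_of_dvd h3').trans h1'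
    have a1 := pp_mul (w := w) (y := y) b1 (z := t) (by omega) r2
    have a2 := pp_mul (w := w) (y := y) b2 (z := t') (by omega) r2'
    rw [← a1, ← a2, e2]
  have eM : M = M' := by
    rw [← Nat.mul_div_cancel' h3, ← Nat.mul_div_cancel' h3', ec]
  subst eM
  have et : t = t' := Nat.eq_of_mul_eq_mul_left
    (Nat.div_pos (Nat.le_of_dvd hMp h3) hmp) e2
  subst et
  rfl

/-- the pairs that are not bad are in the image -/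
theorem gg_surjr {w y M0 : ℕ} {ρ T Y : ℝ} (hρ : 1 < ρ) {u v : ℕ} (hu : 1 ≤ u) (hv : 1 ≤ v)
    (hvY : (v : ℝ) ≤ Y) (hb : ¬ Badr T w y M0 ρ u v) :
    ∃ k ∈ KKr w y ρ T Y M0, GKr w y Y k ∧ gg k = (u, v) := by
  unfold Badr at hb
  push Not at hb
  obtain ⟨hsq, hM0, hT⟩ := hb
  have hu0 : u ≠ 0 := by omega
  have hv0 : v ≠ 0 := by omega
  have hM : pp w y (u * v) ∣ PP w y := pp_dvd_PP _ _ _
  have hm : pp w y u ∣ pp w y (u * v) := pp_mono_dvd hu0 hv0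
  obtain ⟨x, hx⟩ := pp_dvd w y u
  obtain ⟨t, ht⟩ := cof_dvd (w := w) (y := y) hu0 hv0
  have hMm : pp w y u * (pp w y (u * v) / pp w y u) = pp w y (u * v) := Nat.mul_div_cancel' hm
  have huv : u * v = pp w y (u * v) * (x * t) := by
    calc u * v = (pp w y u * x) * (pp w y (u * v) / pp w y u * t) := by rw [← hx, ← ht]
      _ = (pp w y u * (pp w y (u * v) / pp w y u)) * (x * t) := by ring
      _ = _ := by rw [hMm]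
  have hx1 : 1 ≤ x := Nat.one_le_iff_ne_zero.2 fun h => hu0 (by rw [hx, h, mul_zero])
  have ht1 : 1 ≤ t := Nat.one_le_iff_ne_zero.2 fun h => hv0 (by rw [ht, h, mul_zero])
  have rx : Rg w y (x : ℤ) := rg_quot hu0 hv0 hsq (n := x) ⟨t, by rw [mul_assoc]; exact huv⟩
  have rt : Rg w y (t : ℤ) := rg_quot hu0 hv0 hsq (n := t) ⟨x, by rw [mul_assoc, mul_comm t x]; exact huv⟩
  have hmp := pp_pos w y u
  have hMp := pp_pos w y (u * v)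
  have hρ0 : (0 : ℝ) < ρ := by linarith
  have hj1 := jw_le hρ hmp
  have hj2 := lt_jw hρ hmp
  have hpw : (0 : ℝ) < ρ ^ (jw ρ (pp w y u) + 1) := by positivity
  refine ⟨⟨pp w y (u * v), pp w y u, x, t⟩, mem_KKr.2 ⟨⟨hM, hM0⟩, hm, ⟨hx1, ?_⟩, ht1, ?_⟩,
    ⟨rx, rt, ?_⟩, ?_⟩
  · apply Nat.le_floor
    rw [le_div_iff₀ hpw]
    have hxr : (u : ℝ) = (pp w y u : ℝ) * x := by exact_mod_cast hx
    calc (x : ℝ) * ρ ^ (jw ρ (pp w y u) + 1) = ρ * (x * ρ ^ (jw ρ (pp w y u))) := by ring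
      _ ≤ ρ * (x * (pp w y u : ℝ)) := by gcongr
      _ = ρ * u := by rw [hxr]; ring
      _ ≤ T := hT
  · apply Nat.le_floor
    have hMr : (0 : ℝ) < (pp w y (u * v) : ℝ) := by exact_mod_cast hMp
    simp only
    rw [le_div_iff₀ hMr]
    have hMmr : (pp w y (u * v) : ℝ) = (pp w y u : ℝ) * ((pp w y (u * v) / pp w y u : ℕ) : ℝ) := by
      exact_mod_cast hMm.symm
    have htr : (v : ℝ) = ((pp w y (u * v) / pp w y u : ℕ) : ℝ) * t := by exact_mod_cast ht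
    calc (t : ℝ) * (pp w y (u * v) : ℝ) = (pp w y u : ℝ) * v := by rw [hMmr, htr]; ring
      _ ≤ ρ ^ (jw ρ (pp w y u) + 1) * Y := by gcongr
      _ = _ := mul_comm _ _
  · simp only
    rw [← ht]
    exact hvY
  · unfold gg
    simp only
    rw [← hx, ← ht]

open Classical in
theorem claim2r (w y M0 : ℕ) (ρ T Y : ℝ) (φ : ℕ → ℕ → ℝ) (E N : ℕ → ℝ) (hρ : 1 < ρ) (hT : 0 < T) (hY : 0 < Y)
    (hφ : ∀ u v, |φ u v| ≤ 1) (hφ0 : ∀ u v : ℕ, (u : ℝ) ≤ T → Y < (v : ℝ) → φ u v = 0) (hE : ∀ n, |E n| ≤ N n) :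
    |∑ u ∈ Icc 1 ⌊T⌋₊, ∑ v ∈ Icc 1 ⌊Y⌋₊, φ u v * E (u * v) - SSr φ E w y ρ T Y M0| ≤
    ∑ u ∈ Icc 1 ⌊T⌋₊, ∑ v ∈ Icc 1 ⌊Y⌋₊, (if Badr T w y M0 ρ u v then N (u * v) else 0) := by
  have hN : ∀ n, 0 ≤ N n := fun n => (abs_nonneg _).trans (hE n)
  have hinj : Set.InjOn gg (((KKr w y ρ T Y M0).filter (GKr w y Y) : Finset _) : Set
      (Σ _ : ℕ, Σ _ : ℕ, ℕ × ℕ)) := by
    intro k hk k' hk' h
    rw [Finset.mem_coe, Finset.mem_filter] at hk hk'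
    exact gg_injr hk.1 hk'.1 hk.2 hk'.2 h
  have hsub : ((KKr w y ρ T Y M0).filter (GKr w y Y)).image gg ⊆ Icc 1 ⌊T⌋₊ ×ˢ Icc 1 ⌊Y⌋₊ := by
    intro p hp
    obtain ⟨k, hk, rfl⟩ := Finset.mem_image.1 hp
    obtain ⟨hk1, hk2⟩ := Finset.mem_filter.1 hk
    obtain ⟨⟨h1, -⟩, h3, h4, h5⟩ := mem_KKr.1 hk1
    have hMp := pos_of_dvd_PP h1
    have hmp : 0 < k.2.1 := Nat.pos_of_dvd_of_pos h3 hMp
    have hcp : 0 < k.1 / k.2.1 := Nat.div_pos (Nat.le_of_dvd hMp h3) hmp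
    unfold gg
    rw [Finset.mem_product, Finset.mem_Icc, Finset.mem_Icc]
    refine ⟨⟨?_, Nat.le_floor (mx_ler hρ hT hmp h4.2)⟩, ?_, Nat.le_floor hk2.2.2⟩
    · exact Nat.mul_pos hmp h4.1
    · exact Nat.mul_pos hcp h5.1
  have e1 : SSr φ E w y ρ T Y M0 =
      ∑ p ∈ ((KKr w y ρ T Y M0).filter (GKr w y Y)).image gg, φ p.1 p.2 * E (p.1 * p.2) := by
    rw [SSr_flat, Finset.sum_image hinj, Finset.sum_filter]
    refine Finset.sum_congr rfl fun k hk => ?_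
    obtain ⟨⟨h1, -⟩, h3, h4, h5⟩ := mem_KKr.1 hk
    have hMp := pos_of_dvd_PP h1
    have hmp : 0 < k.2.1 := Nat.pos_of_dvd_of_pos h3 hMp
    unfold FF gg
    simp only
    rw [gg_mul h3]
    by_cases hg : GKr w y Y k
    · rw [if_pos hg]
      unfold rg
      rw [if_pos hg.1, if_pos hg.2.1]
      ring
    · rw [if_neg hg]
      by_cases r1 : Rg w y (k.2.2.1 : ℤ)
      · by_cases r2 : Rg w y (k.2.2.2 : ℤ)
        · have h6 : Y < ((k.1 / k.2.1 * k.2.2.2 : ℕ) : ℝ) := by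
            by_contra h7
            exact hg ⟨r1, r2, not_lt.1 h7⟩
          rw [hφ0 _ _ (mx_ler hρ hT hmp h4.2) h6]
          ring
        · unfold rg
          rw [if_neg r2]
          ring
      · unfold rg
        rw [if_neg r1]
        ring
  have e2 : ∑ u ∈ Icc 1 ⌊T⌋₊, ∑ v ∈ Icc 1 ⌊Y⌋₊, φ u v * E (u * v) =
      ∑ p ∈ Icc 1 ⌊T⌋₊ ×ˢ Icc 1 ⌊Y⌋₊, φ p.1 p.2 * E (p.1 * p.2) := by
    rw [Finset.sum_product]
  have e3 : ∑ u ∈ Icc 1 ⌊T⌋₊, ∑ v ∈ Icc 1 ⌊Y⌋₊, (if Badr T w y M0 ρ u v then N (u * v) else 0) =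
      ∑ p ∈ Icc 1 ⌊T⌋₊ ×ˢ Icc 1 ⌊Y⌋₊, (if Badr T w y M0 ρ p.1 p.2 then N (p.1 * p.2) else 0) := by
    rw [Finset.sum_product]
  rw [e1, e2, e3, ← Finset.sum_sdiff hsub, add_sub_cancel_right]
  refine (Finset.abs_sum_le_sum_abs _ _).trans ?_
  refine le_trans (Finset.sum_le_sum (g := fun p : ℕ × ℕ =>
    (if Badr T w y M0 ρ p.1 p.2 then N (p.1 * p.2) else 0)) ?_) ?_
  · intro p hp
    obtain ⟨hp1, hp2⟩ := Finset.mem_sdiff.1 hp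
    rw [Finset.mem_product, Finset.mem_Icc, Finset.mem_Icc] at hp1
    have hb : Badr T w y M0 ρ p.1 p.2 := by
      by_contra hb
      have hv : (p.2 : ℝ) ≤ Y := (Nat.le_floor_iff hY.le).1 hp1.2.2
      obtain ⟨k, hk, hg, he⟩ := gg_surjr hρ hp1.1.1 hp1.2.1 hv hb
      exact hp2 (Finset.mem_image.2 ⟨k, Finset.mem_filter.2 ⟨hk, hg⟩, by rw [he]⟩)
    rw [if_pos hb, abs_mul]
    calc |φ p.1 p.2| * |E (p.1 * p.2)| ≤ 1 * N (p.1 * p.2) :=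
          mul_le_mul (hφ _ _) (hE _) (abs_nonneg _) zero_le_one
      _ = _ := one_mul _
  · rw [Finset.sum_sdiff_eq_sub hsub]
    have h0 : 0 ≤ ∑ x ∈ ((KKr w y ρ T Y M0).filter (GKr w y Y)).image gg,
        (if Badr T w y M0 ρ x.1 x.2 then N (x.1 * x.2) else 0) := by
      refine Finset.sum_nonneg fun p _ => ?_
      split_ifs
      · exact hN _
      · exact le_rfl
    linarith

/-! ### the comparison of the windows -/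

theorem Dv_empty {ρ : ℝ} {M j : ℕ} (h : j ∉ Wn ρ M) : Dv ρ M j = ∅ := by
  unfold Dv
  rw [Finset.filter_eq_empty_iff]
  intro m hm hj
  exact h (Finset.mem_image.2 ⟨m, hm, hj⟩)

theorem DvR_empty {ρ : ℝ} {M j R : ℕ} (h : j ∉ (Wn ρ M).image (fun j => j + R)) : DvR ρ M j R = ∅ := by
  unfold DvR
  split_ifs with hj
  · apply Dv_empty
    intro h1
    exact h (Finset.mem_image.2 ⟨j - R, h1, Nat.sub_add_cancel hj⟩)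
  · rfl

theorem DvR_add {ρ : ℝ} {M j R : ℕ} : DvR ρ M (j + R) R = Dv ρ M j := by
  unfold DvR
  rw [if_pos (Nat.le_add_left _ _), Nat.add_sub_cancel]

theorem SSr_eq1 (φ : ℕ → ℕ → ℝ) (E : ℕ → ℝ) (w y : ℕ) (ρ T Y : ℝ) (M0 R : ℕ) :
    SSr φ E w y ρ T Y M0 = ∑ M ∈ (PP w y).divisors.filter (fun M => M ≤ M0), ∑ j ∈ WnR ρ M R,
    ∑ x ∈ Icc 1 ⌊T / ρ ^ (j + 1)⌋₊, ∑ t ∈ Icc 1 ⌊Y * ρ ^ (j + 1) / M⌋₊,
      ∑ m ∈ Dv ρ M j, FF φ E w y M x t m := by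
  unfold SSr
  refine Finset.sum_congr rfl fun M _ => ?_
  unfold WnR
  refine Finset.sum_subset Finset.subset_union_left fun j _ hj => ?_
  rw [Dv_empty hj]
  simp

theorem SSr_eq2 (φ : ℕ → ℕ → ℝ) (E : ℕ → ℝ) (w y : ℕ) (ρ T Y : ℝ) (hρ : 1 < ρ) (M0 R : ℕ) :
    SSr φ E w y ρ (T / ρ ^ R) (Y * ρ ^ R) M0 =
    ∑ M ∈ (PP w y).divisors.filter (fun M => M ≤ M0), ∑ j ∈ WnR ρ M R,
    ∑ x ∈ Icc 1 ⌊T / ρ ^ (j + 1)⌋₊, ∑ t ∈ Icc 1 ⌊Y * ρ ^ (j + 1) / M⌋₊,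
      ∑ m ∈ DvR ρ M j R, FF φ E w y M x t m := by
  have hρ0 : ρ ≠ 0 := by linarith
  unfold SSr
  refine Finset.sum_congr rfl fun M _ => ?_
  unfold WnR
  have h1 : ∑ j ∈ (Wn ρ M).image (fun j => j + R),
      ∑ x ∈ Icc 1 ⌊T / ρ ^ (j + 1)⌋₊, ∑ t ∈ Icc 1 ⌊Y * ρ ^ (j + 1) / M⌋₊,
        ∑ m ∈ DvR ρ M j R, FF φ E w y M x t m = ∑ j ∈ Wn ρ M ∪ (Wn ρ M).image (fun j => j + R),
      ∑ x ∈ Icc 1 ⌊T / ρ ^ (j + 1)⌋₊, ∑ t ∈ Icc 1 ⌊Y * ρ ^ (j + 1) / M⌋₊,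
        ∑ m ∈ DvR ρ M j R, FF φ E w y M x t m := by
    refine Finset.sum_subset Finset.subset_union_right fun j _ hj => ?_
    rw [DvR_empty hj]
    simp
  rw [← h1, Finset.sum_image (fun a _ b _ h => Nat.add_right_cancel h)]
  refine Finset.sum_congr rfl fun j _ => ?_
  have h2 : T / ρ ^ R / ρ ^ (j + 1) = T / ρ ^ (j + R + 1) := by
    rw [div_div, ← pow_add]
    congr 2
    omega
  have h3 : Y * ρ ^ R * ρ ^ (j + 1) / M = Y * ρ ^ (j + R + 1) / M := by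
    rw [mul_assoc, ← pow_add]
    congr 3
    omega
  rw [h2, h3, DvR_add]

theorem claim1r (w y : ℕ) (ρ T Y : ℝ) (M0 R : ℕ) (φ φ' : ℕ → ℕ → ℝ) (E N : ℕ → ℝ) (hρ : 1 < ρ)
    (hE : ∀ n, |E n| ≤ N n) :
    |SSr φ E w y ρ T Y M0 - SSr φ' E w y ρ (T / ρ ^ R) (Y * ρ ^ R) M0| ≤
    √(∑ M ∈ (PP w y).divisors.filter (fun M => M ≤ M0), ∑ j ∈ WnR ρ M R, AAr N w y ρ T Y M j) *
    √(∑ M ∈ (PP w y).divisors.filter (fun M => M ≤ M0), ∑ j ∈ WnR ρ M R, DDr φ φ' N w y ρ T Y M j R) := by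
  have hN : ∀ n, 0 ≤ N n := fun n => (abs_nonneg _).trans (hE n)
  have hb : ∀ (M x t : ℕ), 0 ≤ rg w y x * rg w y t * N (M * x * t) := fun M x t =>
    mul_nonneg (mul_nonneg (Pool.Agent.N426.QL.rg_nonneg _ _ _) (Pool.Agent.N426.QL.rg_nonneg _ _ _)) (hN _)
  have hd : ∀ (M j x t : ℕ), 0 ≤ rg w y x * rg w y t * N (M * x * t) *
      (∑ m ∈ Dv ρ M j, φ (m * x) (M / m * t) - ∑ m ∈ DvR ρ M j R, φ' (m * x) (M / m * t)) ^ 2 := fun M j x t =>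
    mul_nonneg (hb M x t) (sq_nonneg _)
  have hA : ∀ M j, 0 ≤ AAr N w y ρ T Y M j := fun M j =>
    Finset.sum_nonneg fun x _ => Finset.sum_nonneg fun t _ => hb M x t
  have hD : ∀ M j, 0 ≤ DDr φ φ' N w y ρ T Y M j R := fun M j =>
    Finset.sum_nonneg fun x _ => Finset.sum_nonneg fun t _ => hd M j x t
  rw [SSr_eq1 φ E w y ρ T Y M0 R, SSr_eq2 φ' E w y ρ T Y hρ M0 R, ← Finset.sum_sub_distrib]
  refine cs_iter _ _ _ _ (fun M _ => Finset.sum_nonneg fun j _ => hA M j)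
    (fun M _ => Finset.sum_nonneg fun j _ => hD M j) fun M _ => ?_
  rw [← Finset.sum_sub_distrib]
  refine cs_iter _ _ _ _ (fun j _ => hA M j) (fun j _ => hD M j) fun j _ => ?_
  rw [← Finset.sum_sub_distrib]
  unfold AAr DDr
  refine cs_iter _ _ _ _ (fun x _ => Finset.sum_nonneg fun t _ => hb M x t)
    (fun x _ => Finset.sum_nonneg fun t _ => hd M j x t) fun x _ => ?_
  rw [← Finset.sum_sub_distrib]
  refine cs_iter _ _ _ _ (fun t _ => hb M x t) (fun t _ => hd M j x t) fun t _ => ?_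
  refine term_cs (hb M x t) ?_
  have e : ∑ m ∈ Dv ρ M j, FF φ E w y M x t m - ∑ m ∈ DvR ρ M j R, FF φ' E w y M x t m =
      (rg w y x * rg w y t * (∑ m ∈ Dv ρ M j, φ (m * x) (M / m * t) -
        ∑ m ∈ DvR ρ M j R, φ' (m * x) (M / m * t))) * E (M * x * t) := by
    rw [mul_sub, sub_mul, Finset.mul_sum, Finset.sum_mul, Finset.mul_sum, Finset.sum_mul]
    rfl
  rw [e, abs_mul, abs_mul, abs_mul, abs_of_nonneg (Pool.Agent.N426.QL.rg_nonneg w y x), abs_of_nonneg (Pool.Agent.N426.QL.rg_nonneg w y t)]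
  have h1 : 0 ≤ rg w y x * rg w y t * |∑ m ∈ Dv ρ M j, φ (m * x) (M / m * t) -
      ∑ m ∈ DvR ρ M j R, φ' (m * x) (M / m * t)| :=
    mul_nonneg (mul_nonneg (Pool.Agent.N426.QL.rg_nonneg _ _ _) (Pool.Agent.N426.QL.rg_nonneg _ _ _)) (abs_nonneg _)
  calc rg w y x * rg w y t * |∑ m ∈ Dv ρ M j, φ (m * x) (M / m * t) -
        ∑ m ∈ DvR ρ M j R, φ' (m * x) (M / m * t)| * |E (M * x * t)|
      ≤ rg w y x * rg w y t * |∑ m ∈ Dv ρ M j, φ (m * x) (M / m * t) -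
        ∑ m ∈ DvR ρ M j R, φ' (m * x) (M / m * t)| * N (M * x * t) :=
        mul_le_mul_of_nonneg_left (hE _) h1
    _ = _ := by ring

theorem t_ORBS : S_ORBS := by
  intro T Y ρ w y M0 R φ φ' E N hρ hT hY hφ hφ' hφ0 hφ0' hE
  have hρ0 : (0 : ℝ) < ρ := by linarith
  have h1 := claim1r w y ρ T Y M0 R φ φ' E N hρ hE
  have h2 := claim2r w y M0 ρ T Y φ E N hρ hT hY hφ hφ0 hE
  have h3 := claim2r w y M0 ρ (T / ρ ^ R) (Y * ρ ^ R) φ' E N hρ (by positivity) (by positivity) hφ' hφ0' hE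
  set A := ∑ u ∈ Icc 1 ⌊T⌋₊, ∑ v ∈ Icc 1 ⌊Y⌋₊, φ u v * E (u * v)
  set A' := ∑ u ∈ Icc 1 ⌊T / ρ ^ R⌋₊, ∑ v ∈ Icc 1 ⌊Y * ρ ^ R⌋₊, φ' u v * E (u * v)
  set S := SSr φ E w y ρ T Y M0
  set S' := SSr φ' E w y ρ (T / ρ ^ R) (Y * ρ ^ R) M0
  have h4 : A - A' = (A - S) + (S - S') - (A' - S') := by ring
  have h5 : |A - A'| ≤ |A - S| + |S - S'| + |A' - S'| := by
    rw [h4]
    exact (abs_sub _ _).trans (add_le_add (abs_add_le _ _) le_rfl)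
  refine h5.trans ?_
  linarith

end

end Pool.Agent.N849.QH
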